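import Pool.Agent.HM.Final

/-! MP_f2b4e1_lc, Q1: in equicharacteristic zero, a theory of valued fields is 0-h-minimal if and
only if it is 0-h-minimal for all coarsenings (0-h^coars-minimal). -/

universe u v w

namespace Pool.Agent.Results.MP_f2b4e1_lc.HMinIffCoarse

open Pool.Agent.HM

theorem result {L : FirstOrder.Language.{u, v}} [Sym L] (T : L.Theory)
    (hT : EqCharZeroTheory.{u, v, w} T) : HMin.{u, v, w} T 0 ↔ CoarsMin.{u, v, w} T 0 :=
  Pool.Agent.HM.main T hT

end Pool.Agent.Results.MP_f2b4e1_lc.HMinIffCoarse
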